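import Mathlib

set_option autoImplicit false
open MeasureTheory ProbabilityTheory Filter Topology Set
open scoped NNReal ENNReal Pointwise

namespace Pool.Agent.Results.MP_9049cc_pr.DilateDisproof

/-- The normalised Gaussian measure on real sequences. -/
noncomputable def gammaInf : Measure (ℕ → ℝ) := Measure.infinitePi (fun _ : ℕ => gaussianReal 0 1)

instance : IsProbabilityMeasure gammaInf := by unfold gammaInf; infer_instance

/-- projection to the first two coordinates -/
def pr (x : ℕ → ℝ) : ℝ × ℝ := (x 0, x 1)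

theorem continuous_pr : Continuous pr := by unfold pr; fun_prop

theorem map_pr : gammaInf.map pr = (gaussianReal 0 1).prod (gaussianReal 0 1) := by
  have hind : iIndepFun (fun (i : ℕ) (x : ℕ → ℝ) => x i) gammaInf := by
    unfold gammaInf
    exact iIndepFun_infinitePi (P := fun _ : ℕ => gaussianReal 0 1) (X := fun _ => id)
      (fun _ => measurable_id)
  have h01 : IndepFun (fun x : ℕ → ℝ => x 0) (fun x : ℕ → ℝ => x 1) gammaInf :=
    hind.indepFun (by norm_num)
  have h := (indepFun_iff_map_prod_eq_prod_map_map (measurable_pi_apply 0).aemeasurable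
    (measurable_pi_apply 1).aemeasurable).mp h01
  have e0 : gammaInf.map (fun x : ℕ → ℝ => x 0) = gaussianReal 0 1 := by
    unfold gammaInf; exact Measure.infinitePi_map_eval (μ := fun _ : ℕ => gaussianReal 0 1) 0
  have e1 : gammaInf.map (fun x : ℕ → ℝ => x 1) = gaussianReal 0 1 := by
    unfold gammaInf; exact Measure.infinitePi_map_eval (μ := fun _ : ℕ => gaussianReal 0 1) 1
  rw [e0, e1] at h
  exact h

theorem null_of_volume {s : Set (ℝ × ℝ)} (h : volume s = 0) :
    ((gaussianReal 0 1).prod (gaussianReal 0 1)) s = 0 := by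
  have h1 : gaussianReal 0 1 ≪ volume := gaussianReal_absolutelyContinuous 0 one_ne_zero
  have h2 : ((gaussianReal 0 1).prod (gaussianReal 0 1)) ≪ (volume : Measure ℝ).prod volume :=
    h1.prod h1
  exact h2 h

theorem gamma_preimage_null {s : Set (ℝ × ℝ)} (hs : MeasurableSet s) (h : volume s = 0) :
    gammaInf (pr ⁻¹' s) = 0 := by
  rw [← Measure.map_apply continuous_pr.measurable hs, map_pr]
  exact null_of_volume h

/-- The open cone over a set of slopes, in the plane of the first two coordinates. -/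
def cone (W : Set ℝ) : Set (ℝ × ℝ) := {p | p.1 ≠ 0 ∧ p.2 / p.1 ∈ W}

theorem isOpen_cone {W : Set ℝ} (hW : IsOpen W) : IsOpen (cone W) := by
  have h1 : IsOpen {p : ℝ × ℝ | p.1 ≠ 0} := isOpen_ne_fun continuous_fst continuous_const
  have h2 : ContinuousOn (fun p : ℝ × ℝ => p.2 / p.1) {p : ℝ × ℝ | p.1 ≠ 0} :=
    ContinuousOn.div continuousOn_snd continuousOn_fst (fun p hp => hp)
  exact h2.isOpen_inter_preimage h1 hW

theorem dense_cone {W : Set ℝ} (hQ : ∀ q : ℚ, (q : ℝ) ∈ W) (O : Set (ℝ × ℝ)) (hO : IsOpen O)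
    (hne : O.Nonempty) : (O ∩ cone W).Nonempty := by
  -- a point of `O` with non-zero first coordinate
  obtain ⟨p, hp, hp0⟩ : ∃ p ∈ O, p.1 ≠ 0 := by
    have hd : Dense ({x : ℝ | x ≠ 0} ×ˢ (univ : Set ℝ)) := by
      apply Dense.prod
      · exact dense_compl_singleton 0
      · exact dense_univ
    obtain ⟨p, hp1, hp2⟩ := hd.inter_open_nonempty O hO hne
    exact ⟨p, hp1, hp2.1⟩
  have hcont : Continuous (fun s : ℝ => (p.1, s * p.1)) := by fun_prop
  have hopen : IsOpen ((fun s : ℝ => (p.1, s * p.1)) ⁻¹' O) := hO.preimage hcont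
  have hmem : p.2 / p.1 ∈ (fun s : ℝ => (p.1, s * p.1)) ⁻¹' O := by
    rw [mem_preimage]
    have : (p.1, p.2 / p.1 * p.1) = p := by
      rw [div_mul_cancel₀ _ hp0]
    rw [this]; exact hp
  obtain ⟨q, hq⟩ := (Rat.isDenseEmbedding_coe_real.dense).exists_mem_open hopen ⟨_, hmem⟩
  refine ⟨(p.1, (q : ℝ) * p.1), hq, hp0, ?_⟩
  simp only
  rw [mul_div_cancel_right₀ _ hp0]
  exact hQ q

theorem convex_null {W : Set ℝ} (hQ : ∀ q : ℚ, (q : ℝ) ∈ W) (C : Set (ℕ → ℝ))
    (hC : Convex ℝ C) (hdis : ∀ x ∈ C, pr x ∉ cone W) : gammaInf C = 0 := by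
  set D : Set (ℝ × ℝ) := pr '' C with hD
  have hDc : Convex ℝ D := by
    have hlin : IsLinearMap ℝ pr := by
      constructor
      · intro x y; rfl
      · intro c x; rfl
    exact hC.is_linear_image hlin
  have hint : interior D = ∅ := by
    by_contra hne
    have hne' := nonempty_iff_ne_empty.mpr hne
    obtain ⟨p, hp1, hp2⟩ := dense_cone hQ (interior D) isOpen_interior hne'
    obtain ⟨x, hx, rfl⟩ := interior_subset hp1
    exact hdis x hx hp2
  have hvol : volume (closure D) = 0 := by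
    rw [closure_eq_interior_union_frontier, hint, empty_union]
    exact hDc.addHaar_frontier volume
  refine measure_mono_null ?_ (gamma_preimage_null isClosed_closure.measurableSet hvol)
  intro x hx
  exact subset_closure ⟨x, hx, rfl⟩

theorem exists_slopes (ε : ℝ≥0∞) (hε : 0 < ε) :
    ∃ W : Set ℝ, IsOpen W ∧ (∀ q : ℚ, (q : ℝ) ∈ W) ∧ gammaInf (pr ⁻¹' (cone W)) < ε := by
  set ρ : Measure ℝ := gammaInf.map (fun x => x 1 / x 0) with hρ
  have hmeas : Measurable (fun x : ℕ → ℝ => x 1 / x 0) := by fun_prop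
  have : IsProbabilityMeasure ρ := Measure.isProbabilityMeasure_map hmeas.aemeasurable
  have hnull : ρ (range (fun q : ℚ => (q : ℝ))) = 0 := by
    have hU : range (fun q : ℚ => (q : ℝ)) = ⋃ q : ℚ, {(q : ℝ)} := by
      ext x; simp [eq_comm]
    rw [hU]
    refine measure_iUnion_null (fun q => ?_)
    rw [hρ, Measure.map_apply hmeas (measurableSet_singleton _)]
    have hsub : (fun x : ℕ → ℝ => x 1 / x 0) ⁻¹' {(q : ℝ)} ⊆
        pr ⁻¹' ({p : ℝ × ℝ | p.2 = q * p.1} ∪ {p : ℝ × ℝ | p.1 = 0}) := by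
      intro x hx
      rw [mem_preimage, mem_singleton_iff] at hx
      by_cases h0 : x 0 = 0
      · right; exact h0
      · left
        change x 1 = q * x 0
        rw [← hx, div_mul_cancel₀ _ h0]
    refine measure_mono_null hsub (gamma_preimage_null ?_ ?_)
    · apply MeasurableSet.union
      · exact measurableSet_eq_fun measurable_snd (measurable_fst.const_mul _)
      · exact measurableSet_eq_fun measurable_fst measurable_const
    · apply measure_union_null
      · have h1 : (LinearMap.ker ((LinearMap.snd ℝ ℝ ℝ) - (q : ℝ) • (LinearMap.fst ℝ ℝ ℝ)) :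
            Set (ℝ × ℝ)) = {p : ℝ × ℝ | p.2 = q * p.1} := by
          ext p; simp [LinearMap.mem_ker, sub_eq_zero]
        rw [← h1]
        apply Measure.addHaar_submodule
        intro htop
        have : ((0 : ℝ), (1 : ℝ)) ∈ (LinearMap.ker
          ((LinearMap.snd ℝ ℝ ℝ) - (q : ℝ) • (LinearMap.fst ℝ ℝ ℝ))) := by
          rw [htop]; trivial
        simp [LinearMap.mem_ker] at this
      · have h1 : (LinearMap.ker (LinearMap.fst ℝ ℝ ℝ) : Set (ℝ × ℝ)) =
            {p : ℝ × ℝ | p.1 = 0} := by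
          ext p; simp [LinearMap.mem_ker]
        rw [← h1]
        apply Measure.addHaar_submodule
        intro htop
        have : ((1 : ℝ), (0 : ℝ)) ∈ (LinearMap.ker (LinearMap.fst ℝ ℝ ℝ)) := by
          rw [htop]; trivial
        simp [LinearMap.mem_ker] at this
  obtain ⟨W, hWsub, hWo, hWlt⟩ := (range (fun q : ℚ => (q : ℝ))).exists_isOpen_lt_of_lt
    (μ := ρ) ε (by rw [hnull]; exact hε)
  refine ⟨W, hWo, fun q => hWsub ⟨q, rfl⟩, lt_of_le_of_lt ?_ hWlt⟩
  rw [hρ, Measure.map_apply hmeas hWo.measurableSet]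
  apply measure_mono
  intro x hx
  exact hx.2

/-- For every `ε > 0` there is a balanced compact set `K` of sequences with Gaussian measure at
least `1 - ε` such that no dilate `t K` contains a convex set of positive Gaussian measure. -/
theorem result (ε : ℝ≥0∞) (hε : 0 < ε) :
    ∃ K : Set (ℕ → ℝ), IsCompact K ∧ Balanced ℝ K ∧ 1 - ε ≤ gammaInf K ∧
      ∀ t : ℝ, ∀ C : Set (ℕ → ℝ), Convex ℝ C → C ⊆ t • K → gammaInf C = 0 := by
  have hε2 : 0 < ε / 2 := ENNReal.half_pos hε.ne'
  obtain ⟨W, hWo, hWQ, hWlt⟩ := exists_slopes (ε / 2) hε2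
  -- a large compact box
  obtain ⟨L, hLc, hL⟩ : ∃ L : Set (ℕ → ℝ), IsCompact L ∧ gammaInf Lᶜ ≤ ε / 2 := by
    have hT := (isTightMeasureSet_iff_exists_isCompact_measure_compl_le).mp
      (isTightMeasureSet_singleton (μ := gammaInf)) (ε / 2) hε2
    obtain ⟨L, hL1, hL2⟩ := hT
    exact ⟨L, hL1, hL2 gammaInf rfl⟩
  have hR : ∀ i : ℕ, ∃ R : ℝ, ∀ x ∈ L, |x i| ≤ R := by
    intro i
    obtain ⟨R, hR⟩ := hLc.exists_bound_of_continuousOn (f := fun x : ℕ → ℝ => x i)
      (by fun_prop)
    exact ⟨R, fun x hx => by simpa using hR x hx⟩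
  choose R hR using hR
  set box : Set (ℕ → ℝ) := {x | ∀ i, |x i| ≤ R i} with hbox
  have hboxc : IsCompact box := by
    have : box = Set.pi univ (fun i => Icc (-(R i)) (R i)) := by
      ext x
      simp only [hbox, abs_le, Set.mem_pi, mem_univ, true_implies, mem_Icc]
      rfl
    rw [this]
    exact isCompact_univ_pi (fun i => isCompact_Icc)
  refine ⟨(pr ⁻¹' (cone W))ᶜ ∩ box, ?_, ?_, ?_, ?_⟩
  · exact hboxc.inter_left ((isOpen_cone hWo).preimage continuous_pr).isClosed_compl
  · intro c hc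
    rintro _ ⟨x, ⟨hx1, hx2⟩, rfl⟩
    refine ⟨?_, ?_⟩
    · intro h
      have h0 : c * x 0 ≠ 0 := h.1
      have h1 : (c * x 1) / (c * x 0) ∈ W := h.2
      have hc0 : c ≠ 0 := left_ne_zero_of_mul h0
      rw [mul_div_mul_left _ _ hc0] at h1
      exact hx1 ⟨right_ne_zero_of_mul h0, h1⟩
    · intro i
      have : |c * x i| ≤ R i := by
        rw [abs_mul]
        have hc' : |c| ≤ 1 := by simpa using hc
        have := hx2 i
        nlinarith [abs_nonneg c, abs_nonneg (x i)]
      exact this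
  · have h1 : gammaInf ((pr ⁻¹' (cone W))ᶜ ∩ box)ᶜ ≤ ε := by
      calc gammaInf ((pr ⁻¹' (cone W))ᶜ ∩ box)ᶜ
          ≤ gammaInf ((pr ⁻¹' (cone W)) ∪ Lᶜ) := by
            apply measure_mono
            rw [compl_inter, compl_compl]
            apply union_subset_union_right
            apply compl_subset_compl.mpr
            intro x hx i
            exact hR i x hx
        _ ≤ gammaInf (pr ⁻¹' (cone W)) + gammaInf Lᶜ := measure_union_le _ _
        _ ≤ ε / 2 + ε / 2 := add_le_add hWlt.le hL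
        _ = ε := ENNReal.add_halves ε
    have hm : MeasurableSet ((pr ⁻¹' (cone W))ᶜ ∩ box) :=
      (((isOpen_cone hWo).preimage continuous_pr).isClosed_compl.measurableSet).inter
        hboxc.isClosed.measurableSet
    have h2 := prob_compl_eq_one_sub (μ := gammaInf) hm.compl
    rw [compl_compl] at h2
    rw [h2]
    exact tsub_le_tsub_left h1 1
  · intro t C hC hsub
    apply convex_null hWQ C hC
    intro x hx hcone
    obtain ⟨y, ⟨hy1, hy2⟩, rfl⟩ := hsub hx
    have h0 : t * y 0 ≠ 0 := hcone.1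
    have h1 : (t * y 1) / (t * y 0) ∈ W := hcone.2
    have hc0 : t ≠ 0 := left_ne_zero_of_mul h0
    rw [mul_div_mul_left _ _ hc0] at h1
    exact hy1 ⟨right_ne_zero_of_mul h0, h1⟩

end Pool.Agent.Results.MP_9049cc_pr.DilateDisproof
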